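import Pool.Agent.helper12.BR.Final

/-!
# Rotational and biLipschitz stability of even order Riesz transforms: the answer in all cases

Proof: `Pool/Agent/helper12/AI` (`A_∞` weights), `Pool/Agent/helper12/RT` (iterated Riesz transforms, doubling measures),
`Pool/Agent/helper12/BR` (Beurling transform, doubling measures).
-/

set_option autoImplicit false

open MeasureTheory
open Pool.Agent.helper12.RT Pool.Agent.helper12.AI Pool.Agent.helper12.BR

namespace Pool.Agent.Results.MP_34c9e6_an.CompleteClassification

/-- For the iterated Riesz transforms of even order on `ℝⁿ`, `n ≥ 2`, and for the Beurling transform on `ℝ²`: is the two-weight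
norm `N_T` stable under rotations, is it stable under biLipschitz maps, on pairs of `A_∞` measures, on pairs of
doubling measures? -/
theorem result :
    (∀ (n : ℕ) (β : Fin n → ℕ), 2 ≤ n → Even (∑ j, β j) →
      Stable (rieszSymbol β) Ainf (fun Φ _ => Rotn Φ) ∧ Stable (rieszSymbol β) Ainf BiLip ∧
      (0 < ∑ j, β j →
        ¬ Stable (rieszSymbol β) Doub (fun Φ _ => Rotn Φ) ∧ ¬ Stable (rieszSymbol β) Doub BiLip ∧
        ¬ Stable (rieszSymbol β) DoubSmooth (fun Φ _ => Rotn Φ) ∧
        ¬ Stable (rieszSymbol β) DoubSmooth BiLip) ∧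
      (∑ j, β j = 0 → Stable (rieszSymbol β) Doub (fun Φ _ => Rotn Φ) ∧
        Stable (rieszSymbol β) Doub BiLip)) ∧
    Stable beurlingSymbol Ainf (fun Φ _ => Rotn Φ) ∧ Stable beurlingSymbol Ainf BiLip ∧
    Stable beurlingSymbol Doub (fun Φ _ => Rotn Φ) ∧ ¬ Stable beurlingSymbol Doub BiLip ∧
    ¬ Stable beurlingSymbol DoubSmooth BiLip :=
  complete

end Pool.Agent.Results.MP_34c9e6_an.CompleteClassification
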